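import Mathlib

/-!
# MP_8d8cf3: integer-speed observations of periodic beams

For integer speeds the inverse inequality fails whenever the lines of observation are concurrent,
for every number of lines and every length `T` of the observation.
-/

namespace Pool.Agent.Results.MP_8d8cf3_an.ConcurrentLines

open Finset

/-- the solution of the beam equation with the finitely supported coefficients `cp = c^+`,
`cm = c^-`: `u(t,x) = c_0^+ + c_0^- t + ∑_{k ≠ 0} (c_k^+ e^{ik²t} + c_k^- e^{-ik²t}) e^{ikx}` -/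
noncomputable def u (cp cm : ℤ →₀ ℂ) (t x : ℝ) : ℂ :=
  cp 0 + cm 0 * (t : ℂ) + ∑ k ∈ (cp.support ∪ cm.support).erase 0,
    (cp k * Complex.exp (Complex.I * (k : ℂ) ^ 2 * t) +
      cm k * Complex.exp (-(Complex.I * (k : ℂ) ^ 2 * t))) * Complex.exp (Complex.I * k * x)

/-- `∑_k (|c_k^+|² + |c_k^-|²)` -/
noncomputable def energy (cp cm : ℤ →₀ ℂ) : ℝ :=
  ∑ k ∈ cp.support ∪ cm.support, (‖cp k‖ ^ 2 + ‖cm k‖ ^ 2)

/-- the inverse inequality for `m` lines with speeds `a_i` through the points `(t_i, x_i)`,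
observed during a time `T`, for all finitely supported coefficients -/
def Inverse {m : ℕ} (a : Fin m → ℤ) (t x : Fin m → ℝ) (T : ℝ) : Prop :=
  ∃ α : ℝ, 0 < α ∧ ∀ cp cm : ℤ →₀ ℂ,
    energy cp cm ≤ α * ∑ i, ∫ s in (0 : ℝ)..T, ‖u cp cm (t i + s) (x i - a i * s)‖ ^ 2

lemma telescope (g : ℤ → ℂ) (hg : ∀ k, ‖g k‖ ≤ 1) (N : ℕ) (b : ℤ) :
    ‖∑ k ∈ Finset.Icc (1 : ℤ) N, (g (k + b) - g (k + b + 1))‖ ≤ 2 := by
  have h : ∑ k ∈ Finset.Icc (1 : ℤ) N, (g (k + b) - g (k + b + 1)) =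
      g (1 + b) - g (N + b + 1) := by
    induction N with
    | zero =>
      have : (1 : ℤ) + b = 0 + b + 1 := by ring
      simp [this]
    | succ n ih =>
      have : Finset.Icc (1 : ℤ) ((n + 1 : ℕ) : ℤ) = insert ((n : ℤ) + 1) (Finset.Icc (1 : ℤ) n) := by
        ext k
        simp only [Finset.mem_Icc, Finset.mem_insert]
        push_cast
        omega
      rw [this, Finset.sum_insert (by simp), ih]
      push_cast
      ring_nf
  rw [h]
  calc ‖g (1 + b) - g (N + b + 1)‖ ≤ ‖g (1 + b)‖ + ‖g (N + b + 1)‖ := norm_sub_le _ _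
    _ ≤ 1 + 1 := add_le_add (hg _) (hg _)
    _ = 2 := by norm_num

lemma shift_bound_nat (g : ℤ → ℂ) (hg : ∀ k, ‖g k‖ ≤ 1) (N n : ℕ) (b : ℤ) :
    ‖∑ k ∈ Finset.Icc (1 : ℤ) N, (g (k + b) - g (k + b + n))‖ ≤ 2 * n := by
  induction n with
  | zero => simp
  | succ n ih =>
    have h : ∑ k ∈ Finset.Icc (1 : ℤ) N, (g (k + b) - g (k + b + ((n + 1 : ℕ) : ℤ))) =
        ∑ k ∈ Finset.Icc (1 : ℤ) N, (g (k + b) - g (k + b + n)) +
        ∑ k ∈ Finset.Icc (1 : ℤ) N, (g (k + (b + n)) - g (k + (b + n) + 1)) := by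
      rw [← Finset.sum_add_distrib]
      apply Finset.sum_congr rfl
      intro k _
      push_cast
      ring_nf
    rw [h]
    refine (norm_add_le _ _).trans ?_
    have := telescope g hg N (b + n)
    push_cast
    linarith

lemma shift_bound (g : ℤ → ℂ) (hg : ∀ k, ‖g k‖ ≤ 1) (N : ℕ) (a : ℤ) :
    ‖∑ k ∈ Finset.Icc (1 : ℤ) N, (g k - g (k + a))‖ ≤ 2 * |(a : ℝ)| := by
  rcases le_total 0 a with ha | ha
  · obtain ⟨n, rfl⟩ := Int.eq_ofNat_of_zero_le ha
    have := shift_bound_nat g hg N n 0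
    simpa using this
  · obtain ⟨n, hn⟩ := Int.eq_ofNat_of_zero_le (show 0 ≤ -a by omega)
    have ha' : a = -(n : ℤ) := by omega
    subst ha'
    have := shift_bound_nat g hg N n (-(n : ℤ))
    have h2 : ∑ k ∈ Finset.Icc (1 : ℤ) N, (g k - g (k + -(n : ℤ))) =
        - ∑ k ∈ Finset.Icc (1 : ℤ) N, (g (k + -(n : ℤ)) - g (k + -(n : ℤ) + n)) := by
      rw [← Finset.sum_neg_distrib]
      apply Finset.sum_congr rfl
      intro k _
      have : k + -(n : ℤ) + n = k := by ring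
      rw [this]
      ring
    rw [h2, norm_neg]
    simpa using this

/-- the coefficients of the counterexample: `sgn(k) e^{-ik²τ - ikξ}` for `1 ≤ |k| ≤ N` -/
noncomputable def cc (N : ℕ) (τ ξ : ℝ) : ℤ →₀ ℂ :=
  Finsupp.onFinset ((Finset.Icc (-(N : ℤ)) N).erase 0)
    (fun k => if k ∈ (Finset.Icc (-(N : ℤ)) N).erase 0 then
      (Int.sign k : ℂ) * Complex.exp (-(Complex.I * (k : ℂ) ^ 2 * τ) - Complex.I * k * ξ) else 0)
    (by
      intro k hk
      by_contra h
      simp only [h, if_false, ne_eq, not_true_eq_false] at hk)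

lemma cc_apply (N : ℕ) (τ ξ : ℝ) (k : ℤ) (hk : k ∈ (Finset.Icc (-(N : ℤ)) N).erase 0) :
    cc N τ ξ k =
      (Int.sign k : ℂ) * Complex.exp (-(Complex.I * (k : ℂ) ^ 2 * τ) - Complex.I * k * ξ) := by
  simp only [cc, Finsupp.onFinset_apply, hk, if_true]

lemma norm_exp_I (y : ℝ) : ‖Complex.exp (Complex.I * y)‖ = 1 := by
  rw [mul_comm]
  exact Complex.norm_exp_ofReal_mul_I y

lemma norm_cc (N : ℕ) (τ ξ : ℝ) (k : ℤ) (hk : k ∈ (Finset.Icc (-(N : ℤ)) N).erase 0) :
    ‖cc N τ ξ k‖ = 1 := by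
  rw [cc_apply N τ ξ k hk, norm_mul]
  have h0 : k ≠ 0 := (Finset.mem_erase.mp hk).1
  have h1 : ‖(Int.sign k : ℂ)‖ = 1 := by
    rcases lt_or_gt_of_ne h0 with h | h
    · rw [Int.sign_eq_neg_one_of_neg h]; simp
    · rw [Int.sign_eq_one_of_pos h]; simp
  have h2 : -(Complex.I * (k : ℂ) ^ 2 * τ) - Complex.I * k * ξ =
      Complex.I * ((-((k : ℝ) ^ 2 * τ) - k * ξ : ℝ) : ℂ) := by
    push_cast
    ring
  rw [h1, h2, norm_exp_I, one_mul]

lemma cc_support (N : ℕ) (τ ξ : ℝ) :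
    (cc N τ ξ).support = (Finset.Icc (-(N : ℤ)) N).erase 0 := by
  apply Finset.Subset.antisymm
  · exact Finsupp.support_onFinset_subset
  · intro k hk
    rw [Finsupp.mem_support_iff]
    intro h
    have := norm_cc N τ ξ k hk
    rw [h, norm_zero] at this
    exact zero_ne_one this

lemma energy_cc (N : ℕ) (τ ξ : ℝ) : energy (cc N τ ξ) 0 = 2 * N := by
  rw [energy]
  simp only [Finsupp.support_zero, Finset.union_empty, cc_support, Finsupp.coe_zero,
    Pi.zero_apply, norm_zero]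
  rw [Finset.sum_congr rfl (g := fun _ => (1 : ℝ))]
  · rw [Finset.sum_const, Finset.card_erase_of_mem (by simp)]
    simp only [Int.card_Icc, nsmul_eq_mul, mul_one]
    have : ((N : ℤ) + 1 - -(N : ℤ)).toNat - 1 = 2 * N := by omega
    rw [this]
    push_cast
    ring
  · intro k hk
    rw [norm_cc N τ ξ k hk]
    norm_num

/-- on a line through `(τ, ξ)` the solution is bounded uniformly in `N` -/
lemma u_bound (N : ℕ) (τ ξ : ℝ) (a : ℤ) (t x : ℝ) (h : ξ = x - a * (τ - t)) (s : ℝ) :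
    ‖u (cc N τ ξ) 0 (t + s) (x - a * s)‖ ≤ 2 * |(a : ℝ)| := by
  set y : ℝ := t + s - τ with hy
  set g : ℤ → ℂ := fun k => Complex.exp (Complex.I * (((k : ℝ) * (k - a) * y : ℝ) : ℂ)) with hg
  have hg1 : ∀ k, ‖g k‖ ≤ 1 := fun k => (norm_exp_I _).le
  have h1 : u (cc N τ ξ) 0 (t + s) (x - a * s) =
      ∑ k ∈ (Finset.Icc (-(N : ℤ)) N).erase 0, (Int.sign k : ℂ) * g k := by
    rw [u]
    simp only [Finsupp.support_zero, Finset.union_empty, cc_support, Finsupp.coe_zero,
      Pi.zero_apply, zero_mul, add_zero]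
    have h0 : cc N τ ξ 0 = 0 := by
      rw [← Finsupp.notMem_support_iff, cc_support]
      simp
    rw [h0, zero_add, Finset.erase_idem]
    apply Finset.sum_congr rfl
    intro k hk
    rw [cc_apply N τ ξ k hk, hg]
    simp only
    rw [mul_assoc, mul_assoc, ← Complex.exp_add, ← Complex.exp_add]
    congr 2
    rw [hy, h]
    push_cast
    ring
  have h2 : ∑ k ∈ (Finset.Icc (-(N : ℤ)) N).erase 0, (Int.sign k : ℂ) * g k =
      ∑ k ∈ Finset.Icc (1 : ℤ) N, (g k - g (k + a)) := by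
    have hsplit : (Finset.Icc (-(N : ℤ)) N).erase 0 =
        Finset.Icc (1 : ℤ) N ∪ (Finset.Icc (1 : ℤ) N).image (fun k => -k) := by
      ext k
      simp only [Finset.mem_erase, Finset.mem_Icc, Finset.mem_union, Finset.mem_image]
      constructor
      · rintro ⟨h0, h1, h2⟩
        rcases lt_or_gt_of_ne h0 with h | h
        · right
          exact ⟨-k, ⟨by omega, by omega⟩, by ring⟩
        · left
          omega
      · rintro (⟨h1, h2⟩ | ⟨j, ⟨h1, h2⟩, rfl⟩)
        · omega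
        · omega
    have hdisj : Disjoint (Finset.Icc (1 : ℤ) N) ((Finset.Icc (1 : ℤ) N).image (fun k => -k)) := by
      rw [Finset.disjoint_left]
      intro k hk hk'
      simp only [Finset.mem_Icc, Finset.mem_image] at hk hk'
      obtain ⟨j, hj, hjk⟩ := hk'
      omega
    rw [hsplit, Finset.sum_union hdisj, Finset.sum_image (by
      intro i _ j _ hij
      simpa using hij), ← Finset.sum_add_distrib]
    apply Finset.sum_congr rfl
    intro k hk
    have hk1 : 0 < k := by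
      have := (Finset.mem_Icc.mp hk).1
      omega
    have e1 : g (-k) = g (k + a) := by
      simp only [hg]
      congr 3
      push_cast
      ring
    rw [Int.sign_eq_one_of_pos hk1, Int.sign_eq_neg_one_of_neg (by omega), e1]
    push_cast
    ring
  rw [h1, h2]
  exact shift_bound g hg1 N a

theorem fails {m : ℕ} (a : Fin m → ℤ) (t x : Fin m → ℝ) (T : ℝ) (hT : 0 < T)
    (hc : ∃ τ ξ : ℝ, ∀ i, ξ = x i - a i * (τ - t i)) : ¬ Inverse a t x T := by
  rintro ⟨α, hα, h⟩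
  obtain ⟨τ, ξ, hc⟩ := hc
  set B : ℝ := ∑ i, (2 * |(a i : ℝ)|) ^ 2 * T with hB
  have hbound : ∀ N : ℕ, (2 * N : ℝ) ≤ α * B := by
    intro N
    have h1 := h (cc N τ ξ) 0
    rw [energy_cc] at h1
    refine h1.trans ?_
    apply mul_le_mul_of_nonneg_left _ hα.le
    rw [hB]
    apply Finset.sum_le_sum
    intro i _
    have h2 : ∀ s ∈ Set.uIoc 0 T,
        ‖‖u (cc N τ ξ) 0 (t i + s) (x i - a i * s)‖ ^ 2‖ ≤ (2 * |(a i : ℝ)|) ^ 2 := by
      intro s _
      rw [Real.norm_of_nonneg (by positivity)]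
      exact pow_le_pow_left₀ (norm_nonneg _) (u_bound N τ ξ (a i) (t i) (x i) (hc i) s) 2
    have h3 := intervalIntegral.norm_integral_le_of_norm_le_const h2
    rw [sub_zero, abs_of_pos hT] at h3
    exact (Real.le_norm_self _).trans h3
  obtain ⟨N, hN⟩ := exists_nat_gt (α * B)
  have := hbound N
  have hN0 : (0 : ℝ) ≤ N := Nat.cast_nonneg N
  linarith

/-- **Theorem.** (1) For integer speeds, whenever the lines of observation pass through a common
point, the inverse inequality fails, for every number `m` of lines and every `T > 0`.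
(2) Hence for every `m`, for ALL pairwise distinct nonzero integer speeds and all `T > 0`, it
fails for the points `(t_i, x_i) = (0, 0)`; so no `m` as in Q1 exists.
(3) For two lines of distinct integer speeds it fails for all points and all `T > 0`. -/
theorem result :
    (∀ (m : ℕ) (a : Fin m → ℤ) (t x : Fin m → ℝ) (T : ℝ), 0 < T →
      (∃ τ ξ : ℝ, ∀ i, ∃ s : ℝ, (τ, ξ) = (t i + s, x i - a i * s)) → ¬ Inverse a t x T) ∧
    (∀ (m : ℕ) (a : Fin m → ℤ), Function.Injective a → (∀ i, a i ≠ 0) → ∀ T : ℝ, 0 < T →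
      ¬ Inverse a (fun _ => 0) (fun _ => 0) T) ∧
    (¬ ∃ m : ℕ, 3 ≤ m ∧ ∀ a : Fin m → ℤ, Function.Injective a → (∀ i, a i ≠ 0) →
      ∀ (t x : Fin m → ℝ) (T : ℝ), 0 < T → Inverse a t x T) ∧
    (∀ (a : Fin 2 → ℤ), a 0 ≠ a 1 → ∀ (t x : Fin 2 → ℝ) (T : ℝ), 0 < T →
      ¬ Inverse a t x T) := by
  have h2 : ∀ (m : ℕ) (a : Fin m → ℤ), Function.Injective a → (∀ i, a i ≠ 0) → ∀ T : ℝ, 0 < T →
      ¬ Inverse a (fun _ => 0) (fun _ => 0) T := by
    intro m a _ _ T hT
    exact fails a _ _ T hT ⟨0, 0, fun i => by simp⟩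
  refine ⟨?_, h2, ?_, ?_⟩
  · rintro m a t x T hT ⟨τ, ξ, h⟩
    refine fails a t x T hT ⟨τ, ξ, fun i => ?_⟩
    obtain ⟨s, hs⟩ := h i
    have e1 : τ = t i + s := congrArg Prod.fst hs
    have e2 : ξ = x i - a i * s := congrArg Prod.snd hs
    rw [e1, e2]
    ring
  · rintro ⟨m, _, h⟩
    have hinj : Function.Injective (fun i : Fin m => (i.val : ℤ) + 1) := by
      intro i j hij
      simp only at hij
      apply Fin.ext
      omega
    have hne : ∀ i : Fin m, ((i.val : ℤ) + 1) ≠ 0 := by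
      intro i
      positivity
    exact h2 m (fun i => (i.val : ℤ) + 1) hinj hne 1 one_pos
      (h _ hinj hne (fun _ => 0) (fun _ => 0) 1 one_pos)
  · intro a ha t x T hT
    have hne : (a 0 : ℝ) - a 1 ≠ 0 := by
      rw [sub_ne_zero]
      exact_mod_cast ha
    refine fails a t x T hT
      ⟨(x 0 + a 0 * t 0 - (x 1 + a 1 * t 1)) / ((a 0 : ℝ) - a 1),
        x 0 - a 0 * ((x 0 + a 0 * t 0 - (x 1 + a 1 * t 1)) / ((a 0 : ℝ) - a 1) - t 0), ?_⟩
    intro i
    fin_cases i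
    · rfl
    · simp only [Fin.mk_one, Fin.isValue]
      field_simp
      ring

end Pool.Agent.Results.MP_8d8cf3_an.ConcurrentLines
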